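import Mathlib
import Pool.Agent.Lib.MP_ae5b4e_an_GP.PickS
import Pool.Agent.Lib.MP_ae5b4e_an_NB1.NbFin
import Pool.Agent.Lib.MP_ae5b4e_an_NBT.Label

/-!
# MP_ae5b4e_an, project POR, part GP: Theorem G' at real parameters, for a natural boundary

`NBd k F c h G`, `0 < ρ₀ < c / 4` real, `H > c` the height of `F` at `ρ₀` (`Top F c H ρ₀`).
* `not_extM_above`: no extension above the line at `ρ = 0`;
* `no_steps`: it is impossible that `x₀ - ρ₀`, `x₀`, `x₀ + M ρ₀`, `x₀ + (M + 1) ρ₀` are regular top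
  points and `x₀ + ρ₀` is not (`M ≥ 2`);
* `gp_window`: a window of half length `η ≥ ρ₀` contains a singular top point;
* `gp_irr`: if `ρ₀` is irrational, then `x` or `x - ρ₀` is a singular top point, for every `x`;
* `gp_irr_window`: no window of length `ρ₀` of regular top points, `ρ₀` irrational;
* `TopL.topF`: a top point at which the label continues with values in the strip is regular;
  `gp_window_label`, `gp_irr_label` are the two forms for the label;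
* `top_of_hgt`: `Top` for the cut-off height.
-/

noncomputable section

namespace Pool.Agent.MP_ae5b4e_an_GP

open Complex Set Filter Topology Metric
open Pool.Agent.MP_ae5b4e_an_NBT
open Pool.Agent.MP_ae5b4e_an_NB1 (Pick DP ARel yC)
open scoped ComplexConjugate

variable {k : ℂ → ℂ} {F G : ℂ × ℂ → ℂ} {c h H ρ₀ : ℝ}

/-- no extension above the natural boundary, at `ρ = 0` -/
theorem not_extM_above (hN : NBd k F c h G) {y : ℝ} (hy : h < y) : ¬ ExtM F c (c / 4) y 0 := by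
  rintro ⟨δ, hδ, -, W, hW, hWe⟩
  have hE : ConE k F c h G := hN.toConE
  have hc := hE.pos
  have hch := hE.hc
  have hh : 0 < h := hc.trans hch
  set ε : ℝ := min δ (min (y - h) h) with hε
  have hε0 : 0 < ε := lt_min hδ (lt_min (by linarith) hh)
  have hεδ : ε ≤ δ := min_le_left _ _
  have hεy : ε ≤ y - h := (min_le_right _ _).trans (min_le_left _ _)
  have hεh : ε ≤ h := (min_le_right _ _).trans (min_le_right _ _)
  have hb : ((h:ℂ) * I).im = h := by simp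
  refine hN.nb ((h:ℂ) * I) (by rw [hb]; exact abs_of_pos hh) ⟨ε, hε0, W, ?_,
    ((h - ε / 2 : ℝ) : ℂ) * I, ?_, ?_, ?_⟩
  · refine hW.mono (prod_mono ?_ (ball_subset_ball hεδ))
    intro t ht
    rw [mem_ball, dist_eq_norm] at ht
    have h1 := Complex.abs_im_le_norm (t - (h:ℂ) * I)
    rw [sub_im, hb] at h1
    have h2 := abs_lt.1 (h1.trans_lt ht)
    constructor <;> linarith
  · rw [mem_ball, dist_eq_norm]
    have e : ((h - ε / 2 : ℝ) : ℂ) * I - (h:ℂ) * I = -(((ε / 2 : ℝ) : ℂ) * I) := by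
      push_cast
      ring
    rw [e, norm_neg, norm_mul, norm_I, mul_one, norm_real, Real.norm_of_nonneg (by linarith)]
    linarith
  · have e : (((h - ε / 2 : ℝ) : ℂ) * I).im = h - ε / 2 := by simp
    rw [e, abs_of_pos (by linarith)]
    linarith
  · have hS : IsPreconnected ((fun s : ℝ => ((s:ℂ) * I, (0:ℂ))) '' Ico 0 h) :=
      isPreconnected_Ico.image _ (by fun_prop)
    refine Mer.eqM hS ?_ ?_ (p := ((0:ℝ) * I, 0)) ⟨0, ⟨le_rfl, hh⟩, rfl⟩ ?_ _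
      ⟨h - ε / 2, ⟨by linarith, by linarith⟩, rfl⟩
    · rintro _ ⟨s, ⟨h1, h2⟩, rfl⟩
      refine hW _ ⟨?_, mem_ball_self hδ⟩
      show -c < ((s:ℂ) * I).im ∧ ((s:ℂ) * I).im < y
      have e : ((s:ℂ) * I).im = s := by simp
      rw [e]
      constructor <;> linarith
    · rintro _ ⟨s, ⟨h1, h2⟩, rfl⟩
      have e : ((s:ℂ) * I).im = s := by simp
      exact hE.merG _ (DK_shift hE.toCon (mem_DK_zero hE (t := (s:ℂ) * I)
        (by rw [e, abs_lt]; constructor <;> linarith))).1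
    · have e : (((0:ℝ):ℂ) * I).im = 0 := by simp
      refine EqM.trans (hWe _ ⟨?_, mem_ball_self hδ⟩) (hE.eqG _ ⟨?_, ?_⟩).symm
      · show -c < (((0:ℝ):ℂ) * I).im ∧ (((0:ℝ):ℂ) * I).im < min c y
        rw [e]
        exact ⟨by linarith, lt_min hc (by linarith)⟩
      · show -c < (((0:ℝ):ℂ) * I).im ∧ (((0:ℝ):ℂ) * I).im < c
        rw [e]
        constructor <;> linarith
      · exact mem_ball_self (by positivity)

/-- there is no choice of a segment for a natural boundary -/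
theorem no_pick (hN : NBd k F c h G) {M : ℕ} {d r : ℝ} {tp : ℂ} {X : ℕ → ℂ × ℂ → ℂ}
    (hP : Pick F G c M d ρ₀ r tp X) : False := by
  by_cases hA : ARel M (fun j => yC F (j + 1)) (0, 0)
  · refine not_extM_above hN (y := h + 1) (by linarith)
      (Pool.Agent.MP_ae5b4e_an_NB1.caseII hN.toCon (t := 0) hP.hM ?_ (h + 1))
    have h1 : (fun j => yC F (j + 1)) = fun (j : ℕ) (p : ℂ × ℂ) => F (p.1 + j * p.2, p.2) := by
      funext j p
      unfold yC
      push_cast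
      ring_nf
    rw [h1] at hA
    simpa using hA
  · exact Pool.Agent.MP_ae5b4e_an_NB1.caseI_pick hN.toConE hP hA

/-- **Theorem G', the basic form** -/
theorem no_steps (hN : NBd k F c h G) (hT : Top F c H ρ₀) {x₀ : ℝ} {M : ℕ} (hM : 2 ≤ M)
    (hRm : TopF F G c H ρ₀ (x₀ - ρ₀)) (hR0 : TopF F G c H ρ₀ x₀)
    (hRM : TopF F G c H ρ₀ (x₀ + M * ρ₀)) (hRM1 : TopF F G c H ρ₀ (x₀ + (M + 1) * ρ₀)) :
    TopF F G c H ρ₀ (x₀ + ρ₀) := by
  by_contra hRp
  obtain ⟨M, d, r, tp, X, hP⟩ := exists_pick_steps hN.toConE hT hM hRm hR0 hRp hRM hRM1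
  exact no_pick hN hP

/-- the choice of the steps -/
private lemma pk_steps {R : ℝ → Prop} {a η ρ₀ : ℝ} (hρ : 0 < ρ₀) (hρη : ρ₀ ≤ η)
    (hper : ∀ x, R x → ∀ n : ℤ, R (x + n)) (hwin : ∀ x, |x - a| ≤ η → R x)
    (hs : ∃ s, ¬ R s) :
    ∃ (x₀ : ℝ) (M : ℕ), 2 ≤ M ∧ R (x₀ - ρ₀) ∧ R x₀ ∧ ¬ R (x₀ + ρ₀) ∧ R (x₀ + M * ρ₀) ∧
      R (x₀ + (M + 1) * ρ₀) := by
  obtain ⟨s, hs⟩ := hs
  have hwin' : ∀ (n : ℤ) (x : ℝ), |x - (a + n)| ≤ ρ₀ → R x := by
    intro n x hx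
    have h1 := hper (x - n) (hwin (x - n) (by
      have : x - n - a = x - (a + n) := by ring
      rw [this]
      exact hx.trans hρη)) n
    rwa [sub_add_cancel] at h1
  have hex : ∃ j : ℕ, 1 ≤ j ∧ R (s - j * ρ₀) ∧ R (s - (j + 1) * ρ₀) := by
    set n : ℤ := ⌊s - a - 2 * ρ₀⌋ with hn
    have h1 : (n:ℝ) ≤ s - a - 2 * ρ₀ := Int.floor_le _
    set y := s - (a + n) with hy
    have hy2 : 2 * ρ₀ ≤ y := by rw [hy]; linarith
    set j : ℕ := ⌊y / ρ₀⌋₊ with hj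
    have h2 : (j:ℝ) ≤ y / ρ₀ := Nat.floor_le (div_nonneg (by linarith) hρ.le)
    have h3 : y / ρ₀ < j + 1 := Nat.lt_floor_add_one _
    rw [le_div_iff₀ hρ] at h2
    rw [div_lt_iff₀ hρ] at h3
    have h4 : 1 ≤ j := by
      rw [hj, Nat.one_le_floor_iff, le_div_iff₀ hρ]
      linarith
    refine ⟨j, h4, hwin' n _ ?_, hwin' n _ ?_⟩
    · rw [abs_le]
      constructor <;> nlinarith
    · rw [abs_le]
      constructor <;> nlinarith
  classical
  obtain ⟨h1, h2, h3⟩ := Nat.find_spec hex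
  set j := Nat.find hex with hj
  set x₀ := s - j * ρ₀ with hx₀
  have h4 : ¬ R (x₀ + ρ₀) := by
    intro h5
    rcases Nat.eq_or_lt_of_le h1 with h6 | h6
    · apply hs
      have : x₀ + ρ₀ = s := by
        rw [hx₀, ← h6]
        push_cast
        ring
      rwa [this] at h5
    · have h7 := Nat.find_min hex (m := j - 1) (by omega)
      apply h7
      have h8 : ((j - 1 : ℕ) : ℝ) = j - 1 := by
        rw [Nat.cast_sub h1]
        simp
      refine ⟨by omega, ?_, ?_⟩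
      · rw [h8]
        have : s - ((j:ℝ) - 1) * ρ₀ = x₀ + ρ₀ := by rw [hx₀]; ring
        rwa [this]
      · rw [h8]
        have : s - ((j:ℝ) - 1 + 1) * ρ₀ = x₀ := by rw [hx₀]; ring
        rwa [this]
  have h5 : R (x₀ - ρ₀) := by
    have : x₀ - ρ₀ = s - (j + 1) * ρ₀ := by rw [hx₀]; ring
    rwa [this]
  set n : ℤ := ⌈x₀ + 3 * ρ₀ - a⌉ with hn
  have h6 : x₀ + 3 * ρ₀ - a ≤ n := Int.le_ceil _
  set y := a + n - x₀ with hy
  have hy2 : 3 * ρ₀ ≤ y := by rw [hy]; linarith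
  set M : ℕ := ⌊y / ρ₀⌋₊ with hM
  have h7 : (M:ℝ) ≤ y / ρ₀ := Nat.floor_le (div_nonneg (by linarith) hρ.le)
  have h8 : y / ρ₀ < M + 1 := Nat.lt_floor_add_one _
  have h9 : 2 ≤ M := by
    rw [hM]
    apply Nat.le_floor
    rw [le_div_iff₀ hρ]
    push_cast
    linarith
  rw [le_div_iff₀ hρ] at h7
  rw [div_lt_iff₀ hρ] at h8
  refine ⟨x₀, M, h9, h5, h2, h4, hwin' n _ ?_, hwin' n _ ?_⟩
  · rw [abs_le]
    constructor <;> nlinarith
  · rw [abs_le]
    constructor <;> nlinarith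

/-- **Theorem G', window form.** -/
theorem gp_window (hN : NBd k F c h G) (hT : Top F c H ρ₀) {a η : ℝ} (hη : ρ₀ ≤ η)
    (hwin : ∀ x : ℝ, |x - a| ≤ η → TopF F G c H ρ₀ x) : False := by
  obtain ⟨x₀, M, hM, hRm, hR0, hRp, hRM, hRM1⟩ := pk_steps (R := fun x => TopF F G c H ρ₀ x)
    (a := a) (η := η) hT.pos hη (fun x hx n => hx.add_int hN.toConE n) hwin
    (exists_not_topF hN.toConE hT)
  exact hRp (no_steps hN hT hM hRm hR0 hRM hRM1)

/-- the multiples of an irrational number are dense modulo one -/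
private lemma gp_dense {ρ : ℝ} (hirr : Irrational ρ) {V : Set ℝ} (hV : IsOpen V)
    (hne : V.Nonempty) (hper : ∀ x ∈ V, ∀ n : ℤ, x + n ∈ V) (s : ℝ) : ∃ j : ℕ, s + j * ρ ∈ V := by
  have h1 : DenseRange (fun n : ℕ => n • (ρ : AddCircle (1:ℝ))) := by
    rw [← denseRange_zsmul_iff_nsmul]
    exact AddCircle.denseRange_zsmul_coe_iff.2 (by simpa using hirr)
  set W : Set (AddCircle (1:ℝ)) := (fun x : ℝ => (x : AddCircle (1:ℝ))) '' ((fun x => x + s) ⁻¹' V)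
    with hW
  have hWo : IsOpen W := by
    have h2 : IsOpen ((fun x : ℝ => x + s) ⁻¹' V) := hV.preimage (by fun_prop)
    exact QuotientAddGroup.isOpenMap_coe _ h2
  have hWn : W.Nonempty := by
    obtain ⟨x, hx⟩ := hne
    refine Set.Nonempty.image _ ⟨x - s, ?_⟩
    show x - s + s ∈ V
    rwa [sub_add_cancel]
  obtain ⟨j, hj⟩ := h1.exists_mem_open hWo hWn
  obtain ⟨x, hx, hxe⟩ := hj
  have h3 : ((j * ρ - x : ℝ) : AddCircle (1:ℝ)) = 0 := by
    have e1 : ((j * ρ : ℝ) : AddCircle (1:ℝ)) = j • (ρ : AddCircle (1:ℝ)) := by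
      rw [← nsmul_eq_mul]
      rfl
    rw [AddCircle.coe_sub, e1]
    exact sub_eq_zero.2 hxe.symm
  obtain ⟨n, hn⟩ := AddCircle.coe_eq_zero_iff (1:ℝ) |>.1 h3
  refine ⟨j, ?_⟩
  have h4 := hper _ hx n
  have h5 : x + s + n = s + j * ρ := by
    have : (n:ℝ) = j * ρ - x := by
      rw [← hn]
      simp
    rw [this]
    ring
  rwa [h5] at h4

/-- **Theorem G', irrational parameter**: of the two top points `x` and `x - ρ₀` one is singular. -/
theorem gp_irr (hN : NBd k F c h G) (hT : Top F c H ρ₀) (hirr : Irrational ρ₀) (x : ℝ) :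
    ¬ (TopF F G c H ρ₀ x ∧ TopF F G c H ρ₀ (x - ρ₀)) := by
  rintro ⟨hx, hx1⟩
  have hE := hN.toConE
  set V : Set ℝ := {y | TopF F G c H ρ₀ y ∧ TopF F G c H ρ₀ (y - ρ₀)} with hV
  have hVo : IsOpen V := by
    have h1 : IsOpen {y : ℝ | TopF F G c H ρ₀ y} := isOpen_topF
    exact h1.inter (h1.preimage (f := fun y : ℝ => y - ρ₀) (by fun_prop))
  have hVp : ∀ y ∈ V, ∀ n : ℤ, y + n ∈ V := by
    rintro y ⟨h1, h2⟩ n
    refine ⟨h1.add_int hE n, ?_⟩
    have e : y + n - ρ₀ = y - ρ₀ + n := by ring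
    show TopF F G c H ρ₀ (y + n - ρ₀)
    rw [e]
    exact h2.add_int hE n
  obtain ⟨s, hs⟩ := exists_not_topF hE hT
  have hex : ∃ j : ℕ, s - j * ρ₀ ∈ V := by
    obtain ⟨j, hj⟩ := gp_dense (ρ := -ρ₀) hirr.neg hVo ⟨x, hx, hx1⟩ hVp s
    refine ⟨j, ?_⟩
    have e : s + j * -ρ₀ = s - j * ρ₀ := by ring
    rwa [e] at hj
  classical
  have h1 := Nat.find_spec hex
  set j := Nat.find hex with hj
  have hj1 : 1 ≤ j := by
    rcases Nat.eq_zero_or_pos j with h | h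
    · exfalso
      rw [h] at h1
      apply hs
      have h2 := h1.1
      simpa using h2
    · exact h
  set x₀ := s - j * ρ₀ with hx₀
  have h4 : ¬ TopF F G c H ρ₀ (x₀ + ρ₀) := by
    intro h5
    rcases Nat.eq_or_lt_of_le hj1 with h6 | h6
    · apply hs
      have : x₀ + ρ₀ = s := by
        rw [hx₀, ← h6]
        push_cast
        ring
      rwa [this] at h5
    · have h7 := Nat.find_min hex (m := j - 1) (by omega)
      apply h7
      have h8 : ((j - 1 : ℕ) : ℝ) = j - 1 := by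
        rw [Nat.cast_sub hj1]
        simp
      have e1 : s - ((j - 1 : ℕ) : ℝ) * ρ₀ = x₀ + ρ₀ := by rw [h8, hx₀]; ring
      rw [e1]
      refine ⟨h5, ?_⟩
      show TopF F G c H ρ₀ (x₀ + ρ₀ - ρ₀)
      rw [add_sub_cancel_right]
      exact h1.1
  -- forward
  obtain ⟨i, hi⟩ := gp_dense hirr hVo ⟨x, hx, hx1⟩ hVp (x₀ + 3 * ρ₀)
  refine h4 (no_steps hN hT (M := i + 2) (by omega) h1.2 h1.1 ?_ ?_)
  · have h2 := hi.2
    have e : x₀ + 3 * ρ₀ + i * ρ₀ - ρ₀ = x₀ + ((i + 2 : ℕ) : ℝ) * ρ₀ := by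
      push_cast
      ring
    rwa [e] at h2
  · have h2 := hi.1
    have e : x₀ + 3 * ρ₀ + i * ρ₀ = x₀ + (((i + 2 : ℕ) : ℝ) + 1) * ρ₀ := by
      push_cast
      ring
    rwa [e] at h2

/-- no closed window of length `ρ₀` of regular top points, for an irrational parameter -/
theorem gp_irr_window (hN : NBd k F c h G) (hT : Top F c H ρ₀) (hirr : Irrational ρ₀) {a b : ℝ}
    (hab : a + ρ₀ ≤ b) (hwin : ∀ x ∈ Icc a b, TopF F G c H ρ₀ x) : False := by
  have h0 := hT.pos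
  refine gp_irr hN hT hirr (a + ρ₀) ⟨hwin _ ⟨by linarith, hab⟩, ?_⟩
  rw [add_sub_cancel_right]
  exact hwin _ ⟨le_rfl, by linarith⟩

/-- the cut-off height of `F` at a real parameter -/
theorem top_of_hgt {Y : ℝ} (hρ : 0 < ρ₀)
    (hmem : (ρ₀ : ℂ) ∈ ball (0:ℂ) (c / 4)) (h1 : c < hgt F c (c / 4) Y ρ₀)
    (h2 : hgt F c (c / 4) Y ρ₀ < Y) : Top F c (hgt F c (c / 4) Y ρ₀) ρ₀ := by
  refine ⟨h1, hρ, hmem, fun y hy => extM_of_lt hmem hy, ?_⟩
  rintro ⟨y, hy, hex⟩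
  have h3 := le_hgt_of_extM (hex.mono (min_le_left y Y)) (min_le_right y Y)
  rcases min_choice y Y with h4 | h4 <;> rw [h4] at h3 <;> linarith

/-! ### Labels -/

/-- The label continues to the top point `x + i H`, with values in the strip of height `h`. -/
def TopL (G : ℂ × ℂ → ℂ) (h H ρ₀ x : ℝ) : Prop :=
  ∃ (ε η₁ : ℝ) (Λ : ℂ × ℂ → ℂ), 0 < η₁ ∧ η₁ < ε ∧ η₁ < H ∧
    AnalyticOnNhd ℂ Λ (ball ((x:ℂ) + H * I) ε ×ˢ ball (ρ₀ : ℂ) ε) ∧
    (∀ p ∈ ball ((x:ℂ) + H * I) ε ×ˢ ball (ρ₀ : ℂ) ε, |(Λ p).im| < h) ∧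
    EqM G (fun q => sl G 0 (Λ q)) ((x:ℂ) + H * I - η₁ * I, (ρ₀:ℂ))

/-- a locally univalent map composed with an analytic function -/
private lemma gp_lu_comp {g : ℂ → ℂ} {L : ℂ × ℂ → ℂ} {p : ℂ × ℂ} (hL : AnalyticAt ℂ L p)
    {S : Set ℂ} (hg : LU g S) (hS : L p ∈ S) : MerAt (fun q => g (L q)) p := by
  rcases hg _ hS with ⟨h1, -⟩ | ⟨-, h1, -⟩
  · exact merAt_of_analyticAt (AnalyticAt.fun_comp (g := g) (f := L) h1 hL)
  · have h2 : MerAt (fun q => (g (L q))⁻¹) p :=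
      merAt_of_analyticAt (AnalyticAt.fun_comp (g := fun w => (g w)⁻¹) (f := L) h1 hL)
    have h3 := h2.inv
    simpa only [inv_inv] using h3

/-- A top point at which the label continues with values in the strip is regular. -/
theorem TopL.topF (hN : NBd k F c h G) (hT : Top F c H ρ₀) {x : ℝ} (hx : TopL G h H ρ₀ x) :
    TopF F G c H ρ₀ x := by
  obtain ⟨ε, η₁, Λ, hη, hηε, hηH, hΛ, hΛh, hG⟩ := hx
  have hLU := (fam_of_nb hN).2
  refine topF_of_point hN.toConE hT (hη.trans hηε) hη hηε hηH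
    (g := fun q => sl G 0 (Λ q)) (fun p hp => ?_) hG.symm
  exact gp_lu_comp (hΛ p hp) hLU (abs_lt.1 (hΛh p hp))

/-- A continuation of a label `L` of `G`. -/
theorem topL_of_eq {x ε η₁ : ℝ} (hη : 0 < η₁) (hηε : η₁ < ε) (hηH : η₁ < H) {L Λ : ℂ × ℂ → ℂ}
    (hΛ : AnalyticOnNhd ℂ Λ (ball ((x:ℂ) + H * I) ε ×ˢ ball (ρ₀ : ℂ) ε))
    (hΛh : ∀ p ∈ ball ((x:ℂ) + H * I) ε ×ˢ ball (ρ₀ : ℂ) ε, |(Λ p).im| < h)
    (hL : EqM G (fun q => sl G 0 (L q)) ((x:ℂ) + H * I - η₁ * I, (ρ₀:ℂ)))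
    (he : Λ =ᶠ[𝓝 ((x:ℂ) + H * I - η₁ * I, (ρ₀:ℂ))] L) : TopL G h H ρ₀ x := by
  refine ⟨ε, η₁, Λ, hη, hηε, hηH, hΛ, hΛh, hL.trans (EqM.of_eventuallyEq ?_)⟩
  filter_upwards [he] with q hq
  rw [hq]

/-- **Theorem G', window form, for the label.** -/
theorem gp_window_label (hN : NBd k F c h G) (hT : Top F c H ρ₀) {a η : ℝ} (hη : ρ₀ ≤ η)
    (hwin : ∀ x : ℝ, |x - a| ≤ η → TopL G h H ρ₀ x) : False :=
  gp_window hN hT hη fun x hx => (hwin x hx).topF hN hT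

/-- **Theorem G', irrational parameter, for the label.** -/
theorem gp_irr_label (hN : NBd k F c h G) (hT : Top F c H ρ₀) (hirr : Irrational ρ₀) {a b : ℝ}
    (hab : a + ρ₀ ≤ b) (hwin : ∀ x ∈ Icc a b, TopL G h H ρ₀ x) : False :=
  gp_irr_window hN hT hirr hab fun x hx => (hwin x hx).topF hN hT

end Pool.Agent.MP_ae5b4e_an_GP
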